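import Pool.Agent.H97.PK.Targets3
import Pool.Agent.H97.PK.ITP

/-!
# (ITR) Brunn-Minkowski between the cells of two power diagrams, linear in the radii
-/

open MeasureTheory Set Metric Real
open scoped ENNReal

namespace Pool.Agent.H33.PK

open Pool.Agent.H97.PK

theorem pf_itr : T_ITR := by
  intro d ι _ p b b' i ρ x y hρ hx0 hx1 hy
  have hxy : 0 < x + y := by linarith
  have h0 : 0 < x / (x + y) := div_pos hx0 hxy
  have h1 : x / (x + y) < 1 := (div_lt_one hxy).2 (by linarith)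
  have he : y / (x + y) = 1 - x / (x + y) := by
    field_simp
    ring
  have hlin : (1 - x / (x + y)) * (1 - x) + x / (x + y) * (1 + y) = 1 := by
    field_simp
    ring
  rw [he]
  generalize x / (x + y) = θ at h0 h1 hlin ⊢
  refine bm d θ h0 h1 _ _ _ ((isOpen_cell p b' i).inter isOpen_ball)
    ((isOpen_cell p b i).inter isOpen_ball) ((isOpen_cell p _ i).inter isOpen_ball) ?_
  rintro u ⟨hu1, hu2⟩ v ⟨hv1, hv2⟩
  have ht : 0 < 1 - θ := by linarith
  refine ⟨?_, ?_⟩
  · intro j hj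
    have h3 := hu1 j hj
    have h4 := hv1 j hj
    rw [sq_comb, sq_comb]
    nlinarith [mul_lt_mul_of_pos_left h3 ht, mul_lt_mul_of_pos_left h4 h0]
  · rw [mem_ball, dist_eq_norm] at hu2 hv2 ⊢
    have e1 : (1 - θ) • u + θ • v - p i = (1 - θ) • (u - p i) + θ • (v - p i) := by module
    rw [e1]
    calc ‖(1 - θ) • (u - p i) + θ • (v - p i)‖
        ≤ ‖(1 - θ) • (u - p i)‖ + ‖θ • (v - p i)‖ := norm_add_le _ _
      _ = (1 - θ) * ‖u - p i‖ + θ * ‖v - p i‖ := by
          rw [norm_smul, norm_smul, Real.norm_of_nonneg ht.le, Real.norm_of_nonneg h0.le]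
      _ < (1 - θ) * ((1 - x) * ρ) + θ * ((1 + y) * ρ) :=
          add_lt_add (mul_lt_mul_of_pos_left hu2 ht) (mul_lt_mul_of_pos_left hv2 h0)
      _ = ((1 - θ) * (1 - x) + θ * (1 + y)) * ρ := by ring
      _ = ρ := by rw [hlin, one_mul]

end Pool.Agent.H33.PK
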