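import Pool.Agent.H97.PK.Targets3

/-!
# (RSR) far parts of the cells, largest exponents, radial form
-/

open MeasureTheory Set Metric Real
open scoped ENNReal

namespace Pool.Agent.H33.PK

open Pool.Agent.H97.PK

theorem rsr_sum_le {ι : Type} (S : Finset ι) (μ : Measure ℝ) (f : ι → ℝ → ℝ≥0∞) :
    ∑ i ∈ S, ∫⁻ s, f i s ∂μ ≤ ∫⁻ s, ∑ i ∈ S, f i s ∂μ := by
  classical
  induction S using Finset.induction_on with
  | empty => simp
  | insert a S ha ih =>
    rw [Finset.sum_insert ha]
    simp only [Finset.sum_insert ha]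
    exact (add_le_add le_rfl ih).trans (le_lintegral_add _ _)

theorem rsr_int (D : ℝ) (hD : 0 < D) :
    ∫⁻ r in Ioi (1 : ℝ), ENNReal.ofReal (4 * D * r * exp (D / 2 * (1 - r ^ 2))) = 4 := by
  have hder : ∀ x ∈ Ici (1 : ℝ), HasDerivAt (fun r : ℝ => -4 * exp (D / 2 * (1 - r ^ 2)))
      (4 * D * x * exp (D / 2 * (1 - x ^ 2))) x := by
    intro x _
    have h1 : HasDerivAt (fun r : ℝ => D / 2 * (1 - r ^ 2)) (D / 2 * (0 - 2 * x ^ 1 * 1)) x := by
      have h2 := (((hasDerivAt_id x).pow 2).const_sub 1).const_mul (D / 2)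
      simpa using h2
    have h2 := h1.exp.const_mul (-4)
    refine h2.congr_deriv ?_
    ring
  have hpos : ∀ x ∈ Ioi (1 : ℝ), 0 ≤ 4 * D * x * exp (D / 2 * (1 - x ^ 2)) := by
    intro x hx
    have : (0 : ℝ) < x := lt_trans one_pos hx
    positivity
  have hlim : Filter.Tendsto (fun r : ℝ => -4 * exp (D / 2 * (1 - r ^ 2))) Filter.atTop
      (nhds 0) := by
    have h1 : Filter.Tendsto (fun r : ℝ => D / 2 * (1 - r ^ 2)) Filter.atTop Filter.atBot := by
      refine Filter.Tendsto.const_mul_atBot (by positivity) ?_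
      have h2 : Filter.Tendsto (fun r : ℝ => r ^ 2) Filter.atTop Filter.atTop :=
        Filter.tendsto_pow_atTop two_ne_zero
      have h3 := Filter.tendsto_atBot_add_const_left Filter.atTop (1 : ℝ)
        (Filter.tendsto_neg_atTop_atBot.comp h2)
      refine h3.congr fun r => ?_
      simp only [Function.comp_apply]
      ring
    have h2 := (Real.tendsto_exp_atBot.comp h1).const_mul (-4)
    rw [mul_zero] at h2
    exact h2
  have hint := integrableOn_Ioi_deriv_of_nonneg' hder hpos hlim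
  have hval := integral_Ioi_of_hasDerivAt_of_nonneg' hder hpos hlim
  rw [← ofReal_integral_eq_lintegral_ofReal hint
    ((ae_restrict_iff' measurableSet_Ioi).2 (Filter.Eventually.of_forall hpos)), hval]
  norm_num

theorem pf_rsr (hGRO : T_GRO) (hDIS : T_DIS) : T_RSR := by
  intro d hd ι _ p b ρ Γ S _ hΓ
  have hd1 : (1 : ℝ) ≤ d := by exact_mod_cast hd
  have hd0 : (0 : ℝ) < d := by linarith
  refine (rsr_sum_le S _ _).trans ?_
  have h1 : ∫⁻ r in Ioi (1 : ℝ), ∑ i ∈ S, ENNReal.ofReal (rd (Γ i) r) *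
      volume (cell p b i ∩ ball (p i) (r * ρ i)) ≤
      ∫⁻ r in Ioi (1 : ℝ), ENNReal.ofReal (4 * d * r * exp (d / 2 * (1 - r ^ 2))) * vU p ρ := by
    refine setLIntegral_mono' measurableSet_Ioi fun r hr => ?_
    have hr1 : (1 : ℝ) ≤ r := le_of_lt hr
    have hr0 : (0 : ℝ) < r := lt_trans one_pos hr
    have hrd : 0 < r ^ d := by positivity
    have hpt : ∀ i ∈ S, rd (Γ i) r ≤ 4 * d * r * exp (d * (1 - r ^ 2)) := by
      intro i hi
      obtain ⟨h1, h2⟩ := hΓ i hi
      have hy : 1 - r ^ 2 ≤ 0 := by nlinarith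
      have h3 : exp (Γ i * (1 - r ^ 2)) ≤ exp (d * (1 - r ^ 2)) :=
        Real.exp_le_exp.2 (mul_le_mul_of_nonpos_right h1 hy)
      unfold rd
      refine mul_le_mul ?_ h3 (Real.exp_pos _).le (by positivity)
      nlinarith
    have hpow : r ^ d ≤ exp (d * ((r ^ 2 - 1) / 2)) := by
      have h5 : r ≤ exp ((r ^ 2 - 1) / 2) := by
        have h6 : r ^ 2 ≤ exp ((r ^ 2 - 1) / 2) ^ 2 := by
          rw [← Real.exp_nat_mul]
          have := Real.add_one_le_exp (r ^ 2 - 1)
          calc r ^ 2 ≤ exp (r ^ 2 - 1) := by linarith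
            _ = exp (((2 : ℕ) : ℝ) * ((r ^ 2 - 1) / 2)) := by
                congr 1
                push_cast
                ring
        exact le_of_sq_le_sq h6 (Real.exp_pos _).le
      rw [Real.exp_nat_mul]
      exact pow_le_pow_left₀ hr0.le h5 d
    have hfin : 4 * d * r * exp (d * (1 - r ^ 2)) * r ^ d ≤
        4 * d * r * exp (d / 2 * (1 - r ^ 2)) := by
      calc 4 * d * r * exp (d * (1 - r ^ 2)) * r ^ d
          ≤ 4 * d * r * exp (d * (1 - r ^ 2)) * exp (d * ((r ^ 2 - 1) / 2)) :=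
            mul_le_mul_of_nonneg_left hpow (by positivity)
        _ = 4 * d * r * exp (d / 2 * (1 - r ^ 2)) := by
            rw [mul_assoc, ← Real.exp_add]
            congr 2
            ring
    calc ∑ i ∈ S, ENNReal.ofReal (rd (Γ i) r) * volume (cell p b i ∩ ball (p i) (r * ρ i))
        ≤ ∑ i ∈ S, ENNReal.ofReal (4 * d * r * exp (d * (1 - r ^ 2))) *
          volume (cell p b i ∩ ball (p i) (r * ρ i)) :=
          Finset.sum_le_sum fun i hi => mul_le_mul_left (ENNReal.ofReal_le_ofReal (hpt i hi)) _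
      _ = ENNReal.ofReal (4 * d * r * exp (d * (1 - r ^ 2))) *
          ∑ i ∈ S, volume (cell p b i ∩ ball (p i) (r * ρ i)) := by rw [Finset.mul_sum]
      _ ≤ ENNReal.ofReal (4 * d * r * exp (d * (1 - r ^ 2))) *
          (ENNReal.ofReal (r ^ d) * vU p ρ) := by
          refine mul_le_mul_right ?_ _
          exact ((hDIS d ι p b).2 S fun i => r * ρ i).trans (hGRO d hd ι p ρ r hr1)
      _ = ENNReal.ofReal (4 * d * r * exp (d * (1 - r ^ 2)) * r ^ d) * vU p ρ := by
          rw [← mul_assoc, ← ENNReal.ofReal_mul (by positivity)]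
      _ ≤ ENNReal.ofReal (4 * d * r * exp (d / 2 * (1 - r ^ 2))) * vU p ρ :=
          mul_le_mul_left (ENNReal.ofReal_le_ofReal hfin) _
  refine h1.trans (le_of_eq ?_)
  rw [lintegral_mul_const _ (by fun_prop), rsr_int d hd0]

end Pool.Agent.H33.PK
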